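import Pool.Agent.Y754.PN.Fam
import Pool.Agent.Y754.PN.Two

/-!
# The orders at which the polynomial numerical indices of real spaces of dimension `n` vanish

For `n ≥ 3` and every `m ≥ 1` there is an `n`-dimensional real space whose polynomial numerical
indices vanish exactly from the order `m` on; for `n = 2` exactly the odd `m` occur, for `n = 1` no
index vanishes.  In particular `n^{(2)}(X) = 0` implies `n(X) = 0` in dimension two, and in no
dimension `n ≥ 3`.
-/

set_option autoImplicit false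

namespace Pool.Agent.Results.MP_07f7bf_an.VanishingOrders

/-- The supremum norm of the `k`-homogeneous polynomial `x ↦ A (x, …, x)` on the unit ball. -/
noncomputable def polyNorm {X : Type} [NormedAddCommGroup X] [NormedSpace ℝ X] {k : ℕ}
    (A : ContinuousMultilinearMap ℝ (fun _ : Fin k => X) X) : ℝ :=
  sSup {r : ℝ | ∃ x : X, ‖x‖ ≤ 1 ∧ r = ‖A (fun _ => x)‖}

/-- The numerical radius of the `k`-homogeneous polynomial `x ↦ A (x, …, x)`. -/
noncomputable def polyRadius {X : Type} [NormedAddCommGroup X] [NormedSpace ℝ X] {k : ℕ}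
    (A : ContinuousMultilinearMap ℝ (fun _ : Fin k => X) X) : ℝ :=
  sSup {r : ℝ | ∃ (x : X) (f : X →L[ℝ] ℝ), ‖x‖ = 1 ∧ ‖f‖ = 1 ∧ f x = 1 ∧
    r = |f (A (fun _ => x))|}

/-- The polynomial numerical index of order `k` of the real normed space `X`. -/
noncomputable def polyIndex (k : ℕ) (X : Type) [NormedAddCommGroup X] [NormedSpace ℝ X] : ℝ :=
  sInf {r : ℝ | ∃ A : ContinuousMultilinearMap ℝ (fun _ : Fin k => X) X,
    polyNorm A = 1 ∧ r = polyRadius A}

/-- The numerical index of the real normed space `X`, defined with bounded linear operators. -/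
noncomputable def numIndex (X : Type) [NormedAddCommGroup X] [NormedSpace ℝ X] : ℝ :=
  sInf {r : ℝ | ∃ T : X →L[ℝ] X, ‖T‖ = 1 ∧
    r = sSup {s : ℝ | ∃ (x : X) (f : X →L[ℝ] ℝ), ‖x‖ = 1 ∧ ‖f‖ = 1 ∧ f x = 1 ∧ s = |f (T x)|}}

/-- (1) For `n ≥ 3` and `m ≥ 1`, and for `n = 2` and odd `m`, there is an `n`-dimensional real space
with `n^{(k)}(X) = 0` exactly for `k ≥ m`, so with `n(X) = 0` only if `m = 1`.  (2) In dimension two,
if an index of even order vanishes, then the preceding one vanishes; in particular `n^{(2)}(X) = 0`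
implies `n(X) = 0`.  (3) In dimension one all indices are positive. -/
theorem result :
    (∀ n m : ℕ, 1 ≤ m → (3 ≤ n ∨ n = 2 ∧ Odd m) →
      ∃ (X : Type) (_ : NormedAddCommGroup X) (_ : NormedSpace ℝ X),
        Module.finrank ℝ X = n ∧ (∀ k : ℕ, polyIndex k X = 0 ↔ m ≤ k) ∧
          (numIndex X = 0 ↔ m = 1)) ∧
    (∀ (X : Type) [NormedAddCommGroup X] [NormedSpace ℝ X], Module.finrank ℝ X = 2 →
      (∀ k : ℕ, Odd k → polyIndex (k + 1) X = 0 → polyIndex k X = 0) ∧
      (polyIndex 2 X = 0 → numIndex X = 0)) ∧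
    (∀ (X : Type) [NormedAddCommGroup X] [NormedSpace ℝ X], Module.finrank ℝ X = 1 →
      ∀ k : ℕ, 0 < polyIndex k X) := by
  refine ⟨fun n m hm h => ?_, fun X _ _ h2 => ?_, fun X _ _ h1 k => ?_⟩
  · obtain ⟨X, i1, i2, h3, h4⟩ := Y754.PN.exists_space hm h
    refine ⟨X, i1, i2, h3, h4, ?_⟩
    have h5 : numIndex X = polyIndex 1 X := Y754.PN.nidx_eq
    have h6 : polyIndex 1 X = 0 ↔ m ≤ 1 := h4 1
    rw [h5, h6]
    omega
  · have h3 : ∀ k : ℕ, Odd k → polyIndex (k + 1) X = 0 → polyIndex k X = 0 :=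
      fun k hk h => Y754.PN.two_even h2 hk.add_one h
    refine ⟨h3, fun h => ?_⟩
    have h5 : numIndex X = polyIndex 1 X := Y754.PN.nidx_eq
    rw [h5]
    exact h3 1 odd_one h
  · exact Y754.PN.one_pos' h1 k

end Pool.Agent.Results.MP_07f7bf_an.VanishingOrders
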